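import Pool.Agent.Lib.MP_ab8df0_nt.T.Cubic
import Pool.Agent.Lib.MP_ab8df0_nt.P.K3

set_option maxRecDepth 100000

/-! Constants and hypotheses. -/

namespace Pool.Agent.Lib.MP_ab8df0_nt.T.B22a

open Pool.Agent.Lib.MP_ab8df0_nt.B Pool.Agent.Lib.MP_ab8df0_nt.P

def vs : Cs := [([0, 1], 1), ([], 1), ([], 1), ([], 1), 
  ([52, 36, 25], 1)]

def M (t0 : ℤ) (k0 : ℕ) : List Hyp := [
  .disc 1 t0 k0,
  .disc 2 1 1,
  .sqr 3 (.mul (.neg (.var 2)) (.mul (.add (.num 1) (.mul (.var 1) (.var 0))) (.var 4))),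
  .cls (.mul (.neg (.var 2)) (.mul (.add (.num 1) (.mul (.var 1) (.var 0))) (.var 4))) [],
  .cls (.var 3) []]

def A : List AH := [
  ]

theorem auto : (baseOk 3 vs && A.all (AH.ok FDK3 3 vs)) = true := by decide +kernel

end Pool.Agent.Lib.MP_ab8df0_nt.T.B22a

/-! Proof trees. -/

namespace Pool.Agent.Lib.MP_ab8df0_nt.T.B22a

open Pool.Agent.Lib.MP_ab8df0_nt.B Pool.Agent.Lib.MP_ab8df0_nt.P

def r0_0 : Tree := .set 4 [[], []] (.piv [] [] (.disc 5 (.disc 6 (.split 5 (.split 5 (.split 5 (.split 6 (.deadp 8 0 [] (ce 0 264 1 1 0x1)) (.split 6 (.deadp 8 0 [] (ce 0 264 1 1 0x1)) (.root 7 0 [] (ce 0 264 6 1 0x35) (.root 7 1 [] (ce 0 264 6 2 0x26a) (.deadp 9 1 [] (ce 0 264 5 2 0x2e8)) (.deadp 9 1 [] (ce 0 264 5 2 0x2e8))) (.root 7 1 [] (ce 0 264 6 2 0x26a) (.deadp 9 0 [] (ce 0 264 1 1 0x1)) (.deadp 9 0 [] (ce 0 264 1 1 0x1)))))) (.split 6 (.deadp 8 0 [] (ce 0 264 1 1 0x1)) (.split 6 (.deadp 8 1 []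 (ce 0 264 6 2 0xf77)) (.deadp 8 0 [] (ce 0 264 1 1 0x1))))) (.split 6 (.deadp 8 1 [] (ce 0 264 5 2 0x32b)) (.deadp 8 0 [] (ce 0 264 1 1 0x1)))) (.split 5 (.split 6 (.deadp 8 1 [] (ce 0 264 5 2 0x2e8)) (.deadp 8 1 [] (ce 0 264 5 2 0x3e8))) (.deadp 8 0 [] (ce 0 264 1 0 0x0)))))))

theorem r0 : run FDK3.ds FDK3.es [[], []] vs.length (fullH 3 vs (M 0 0) A) r0_0 = true := by
  decide +kernel

end Pool.Agent.Lib.MP_ab8df0_nt.T.B22a

/-! The result of the computation. -/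

namespace Pool.Agent.Lib.MP_ab8df0_nt.T.B22a

open Pool.Agent.Lib.MP_ab8df0_nt.B Pool.Agent.Lib.MP_ab8df0_nt.P

theorem core {K : Type} [Field K] [NumberField K] {a : K} {pl : List (Place K)} {ph : List (K →+* ℝ)}
    {w : List (IsDedekindDomain.HeightOneSpectrum (NumberField.RingOfIntegers K))}
    (hP : Pack K FDK3 a pl ph w) {G : Prop} (t z B : K)
    (hdisc : Q2 0 (t - ((0 : ℤ) : K)))
    (hz : Q2 1 (z - ((1 : ℤ) : K)))
    (hB : B ^ 2 = ((-(z)) * ((1 + (t * a)) * cval a vs 4)))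
    (hclsB : IsSquare ((-(z)) * ((1 + (t * a)) * cval a vs 4)))
    (hcls : IsSquare B) :
    G := by
  refine hP.cover (fr := [t, z, B]) (M := M) (cs := [[], []]) rfl auto
    (l := [(0, 0)]) (by decide) ?_ hdisc fun t0 k0 hq => ?_
  · exact List.forall_mem_cons.2 ⟨⟨_, r0⟩, fun _ h => absurd h List.not_mem_nil⟩
  · refine List.forall_mem_cons.2 ⟨?_, List.forall_mem_cons.2 ⟨?_, List.forall_mem_cons.2 ⟨?_, List.forall_mem_cons.2 ⟨?_, List.forall_mem_cons.2 ⟨?_, fun _ h => absurd h List.not_mem_nil⟩⟩⟩⟩⟩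
    · exact hq
    · exact hz
    · show B ^ 2 = ((-(z)) * ((((1 : ℤ) : K) + (t * a)) * cval a vs 4))
      try push_cast
      linear_combination hB
    · exact span_of_isSquare (x := ((-(z)) * ((((1 : ℤ) : K) + (t * a)) * cval a vs 4))) ((by push_cast; ring : ((-(z)) * ((((1 : ℤ) : K) + (t * a)) * cval a vs 4)) = ((-(z)) * ((1 + (t * a)) * cval a vs 4))) ▸ hclsB)
    · exact span_of_isSquare (x := B) ((by push_cast; ring : B = B) ▸ hcls)

end Pool.Agent.Lib.MP_ab8df0_nt.T.B22a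

/-! Constants and hypotheses. -/

namespace Pool.Agent.Lib.MP_ab8df0_nt.T.B22b

open Pool.Agent.Lib.MP_ab8df0_nt.B Pool.Agent.Lib.MP_ab8df0_nt.P

def vs : Cs := [([0, 1], 1), ([], 1), ([], 1), ([], 1), 
  ([52, 36, 25], 1)]

def M (t0 : ℤ) (k0 : ℕ) : List Hyp := [
  .disc 1 t0 k0,
  .disc 2 1 1,
  .sqr 3 (.mul (.neg (.var 2)) (.mul (.add (.var 1) (.var 0)) (.var 4))),
  .cls (.mul (.neg (.var 2)) (.mul (.add (.var 1) (.var 0)) (.var 4))) [],
  .cls (.var 3) []]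

def A : List AH := [
  ]

theorem auto : (baseOk 3 vs && A.all (AH.ok FDK3 3 vs)) = true := by decide +kernel

end Pool.Agent.Lib.MP_ab8df0_nt.T.B22b

/-! Proof trees. -/

namespace Pool.Agent.Lib.MP_ab8df0_nt.T.B22b

open Pool.Agent.Lib.MP_ab8df0_nt.B Pool.Agent.Lib.MP_ab8df0_nt.P

def r0_0 : Tree := .set 4 [[], []] (.piv [] [] (.disc 5 (.disc 6 (.split 5 (.split 5 (.split 6 (.split 6 (.deadp 8 0 [] (ce 0 264 1 1 0x1)) (.root 7 0 [] (ce 0 264 3 1 0x5) (.root 7 1 [] (ce 0 264 6 2 0x8a9) (.deadp 9 1 [] (ce 0 264 4 2 0x85)) (.deadp 9 1 [] (ce 0 264 4 2 0x85))) (.root 7 1 [] (ce 0 264 6 2 0x8a9) (.deadp 9 0 [] (ce 0 264 1 1 0x1)) (.deadp 9 0 [] (ce 0 264 1 1 0x1))))) (.deadp 8 0 [] (ce 0 264 1 1 0x1))) (.split 6 (.split 6 (.deadp 8 1 [] (ce 0 264 6 2 0xa29)) (.deadp 8 0 [] (ce 0 264 1 1 0x1))) (.deadp 8 0 [] (ce 0 264 1 1 0x1)))) (.split 6 (.deadp 8 0 [] (ce 0 264 1 1 0x1)) (.deadp 8 1 [] (ce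 0 264 4 2 0x85)))))))

theorem r0 : run FDK3.ds FDK3.es [[], []] vs.length (fullH 3 vs (M 0 1) A) r0_0 = true := by
  decide +kernel

end Pool.Agent.Lib.MP_ab8df0_nt.T.B22b

/-! The result of the computation. -/

namespace Pool.Agent.Lib.MP_ab8df0_nt.T.B22b

open Pool.Agent.Lib.MP_ab8df0_nt.B Pool.Agent.Lib.MP_ab8df0_nt.P

theorem core {K : Type} [Field K] [NumberField K] {a : K} {pl : List (Place K)} {ph : List (K →+* ℝ)}
    {w : List (IsDedekindDomain.HeightOneSpectrum (NumberField.RingOfIntegers K))}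
    (hP : Pack K FDK3 a pl ph w) {G : Prop} (t z B : K)
    (hdisc : Q2 1 (t - ((0 : ℤ) : K)))
    (hz : Q2 1 (z - ((1 : ℤ) : K)))
    (hB : B ^ 2 = ((-(z)) * ((t + a) * cval a vs 4)))
    (hclsB : IsSquare ((-(z)) * ((t + a) * cval a vs 4)))
    (hcls : IsSquare B) :
    G := by
  refine hP.cover (fr := [t, z, B]) (M := M) (cs := [[], []]) rfl auto
    (l := [(0, 1)]) (by decide) ?_ hdisc fun t0 k0 hq => ?_
  · exact List.forall_mem_cons.2 ⟨⟨_, r0⟩, fun _ h => absurd h List.not_mem_nil⟩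
  · refine List.forall_mem_cons.2 ⟨?_, List.forall_mem_cons.2 ⟨?_, List.forall_mem_cons.2 ⟨?_, List.forall_mem_cons.2 ⟨?_, List.forall_mem_cons.2 ⟨?_, fun _ h => absurd h List.not_mem_nil⟩⟩⟩⟩⟩
    · exact hq
    · exact hz
    · show B ^ 2 = ((-(z)) * ((t + a) * cval a vs 4))
      try push_cast
      linear_combination hB
    · exact span_of_isSquare (x := ((-(z)) * ((t + a) * cval a vs 4))) ((by push_cast; ring : ((-(z)) * ((t + a) * cval a vs 4)) = ((-(z)) * ((t + a) * cval a vs 4))) ▸ hclsB)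
    · exact span_of_isSquare (x := B) ((by push_cast; ring : B = B) ▸ hcls)

end Pool.Agent.Lib.MP_ab8df0_nt.T.B22b

/-! A class of solutions that is empty for local reasons. -/

namespace Pool.Agent.Lib.MP_ab8df0_nt.T.B22

open Pool.Agent.Lib.MP_ab8df0_nt.B Pool.Agent.Lib.MP_ab8df0_nt.P Pool.Agent.Lib.MP_ab8df0_nt.C

theorem main {K : Type} [Field K] [NumberField K] {a : K} {pl : List (Place K)} {ph : List (K →+* ℝ)}
    {w : List (IsDedekindDomain.HeightOneSpectrum (NumberField.RingOfIntegers K))}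
    (hP : Pack K FDK3 a pl ph w) : BB22 := by
  intro x y z _ hyz h hf
  have ht : a ^ 3 = ((3 : ℤ) : K) := by
    have := hP.root
    simp only [FDK3, ev, List.length_cons, List.length_nil] at this
    push_cast at this ⊢
    linear_combination this
  have hc : e3 a (m3 3 eps3 eps3) * cval a B22a.vs 4 = 1 := by
    have h3 : a ^ 3 = 3 := by exact_mod_cast ht
    simp only [e3, m3, eps3, cval, B22a.vs, ev, List.getD_cons_succ, List.getD_cons_zero]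
    push_cast
    linear_combination ((-69) * a ^ 0 + (-100) * a ^ 1) * h3
  rcases Int.even_or_odd z with hz | hz
  · exact chart1 ht hc hf (odd_y hyz hz) hz fun t u B h1 h2 h3 h4 h5 =>
      B22b.core hP t u B h1 h2 h3 h4 h5
  · exact chart0 ht hc hf hz fun t u B h1 h2 h3 h4 h5 => B22a.core hP t u B h1 h2 h3 h4 h5

theorem bb : BB22 := by
  obtain ⟨pl, ph, w, hP⟩ := K3.pack
  exact main hP

end Pool.Agent.Lib.MP_ab8df0_nt.T.B22
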